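import Pool.Agent.Helper54.SR.Defs
import Pool.Agent.Helper51.PW.Density

/-!
# An element fixed by the decomposition group has the valuation of an element of `k(X)`
-/

set_option autoImplicit false
set_option linter.unusedVariables false
set_option linter.unusedSectionVars false
open scoped Pointwise
open Polynomial Pool.Agent.Helper54.PW

namespace Pool.Agent.Helper54.SR

private theorem fu_exists_w {k L : Type} [Field k] [Field L] [Algebra (RatFunc k) L]
    [Algebra.IsAlgebraic (RatFunc k) L] (B : ValuationSubring L) (hB : B ≠ ⊤) :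
    ∃ w : RatFunc k, w ≠ 0 ∧ algebraMap (RatFunc k) L w ∈ B.nonunits := by
  by_contra h
  push Not at h
  have hall : ∀ y : RatFunc k, algebraMap (RatFunc k) L y ∈ B := by
    intro y
    by_contra hy
    have hy0 : y ≠ 0 := by
      rintro rfl
      apply hy
      rw [map_zero]
      exact B.zero_mem
    apply h y⁻¹ (inv_ne_zero hy0)
    rw [map_inv₀, ValuationSubring.inv_mem_nonunits_iff]
    exact Or.inr hy
  apply hB
  rw [eq_top_iff]
  intro x _
  have hint : IsIntegral (RatFunc k) x := Algebra.IsIntegral.isIntegral x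
  have hint2 : IsIntegral B x := by
    obtain ⟨f, hf, hfx⟩ := hint
    let ψ : RatFunc k →+* B := (algebraMap (RatFunc k) L).codRestrict B.toSubring hall
    refine ⟨f.map ψ, hf.map ψ, ?_⟩
    rw [Polynomial.eval₂_map]
    exact hfx
  obtain ⟨y, hy⟩ := (IsIntegrallyClosed.isIntegral_iff (R := B) (K := L)).1 hint2
  rw [← hy]
  exact y.2

section local'
variable {p : ℕ} [Fact p.Prime] {k L : Type} [Field k] [IsAlgClosed k] [CharP k p] [Field L]
  [Algebra (RatFunc k) L] [FiniteDimensional (RatFunc k) L] [IsGalois (RatFunc k) L]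

/-- SR-L3 -/
theorem fixed_unit (A : ValuationSubring L) (hA : IsPl k A) (r : L) (hr : r ≠ 0)
    (hfix : ∀ σ : L ≃ₐ[RatFunc k] L, σ • A = A → σ r = r) :
    ∃ a : RatFunc k, a ≠ 0 ∧ Un A (r * algebraMap (RatFunc k) L a) := by
  let _ : Algebra k L := ((algebraMap (RatFunc k) L).comp (algebraMap k (RatFunc k))).toAlgebra
  have : IsScalarTower k (RatFunc k) L := IsScalarTower.of_algebraMap_eq fun _ => rfl
  have hA' : IsPlace k A := hA
  have hF : FF k L := ff_of_algebraic k L
  obtain ⟨w, hw0, hw⟩ := fu_exists_w (k := k) A hA.1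
  have hW0 : algebraMap (RatFunc k) L w ≠ 0 := by
    rwa [Ne, FaithfulSMul.algebraMap_eq_zero_iff]
  obtain ⟨N, hN⟩ := arch hF A hA.2 (algebraMap (RatFunc k) L w) hw hW0 r⁻¹
  have hN' := hN N le_rfl
  obtain ⟨y₀, hy₀⟩ := density_F (M := RatFunc k) hF A hA'
    (r * (algebraMap (RatFunc k) L w ^ N)⁻¹) (by
      intro σ hσ
      rw [map_mul, hfix σ hσ, map_inv₀, map_pow, AlgEquiv.commutes])
  have hy1 : A.valuation (algebraMap (RatFunc k) L y₀) =
      A.valuation (r * (algebraMap (RatFunc k) L w ^ N)⁻¹) := by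
    have h1 : 1 < A.valuation (r * (algebraMap (RatFunc k) L w ^ N)⁻¹) := by
      have h2 : r * (algebraMap (RatFunc k) L w ^ N)⁻¹ =
          (algebraMap (RatFunc k) L w ^ N * r⁻¹)⁻¹ := by
        rw [mul_inv, inv_inv, mul_comm]
      rw [h2, Valuation.one_lt_val_iff]
      · rw [inv_inv]
        exact hN'
      · exact inv_ne_zero (mul_ne_zero (pow_ne_zero _ hW0) (inv_ne_zero hr))
    have h3 : algebraMap (RatFunc k) L y₀ = r * (algebraMap (RatFunc k) L w ^ N)⁻¹ -
        (r * (algebraMap (RatFunc k) L w ^ N)⁻¹ - algebraMap (RatFunc k) L y₀) := by ring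
    rw [h3]
    apply Valuation.map_sub_eq_of_lt_left
    exact lt_trans hy₀ h1
  have hy0 : y₀ ≠ 0 := by
    rintro rfl
    rw [map_zero, map_zero] at hy1
    have := (Valuation.zero_iff _).1 hy1.symm
    exact mul_ne_zero hr (inv_ne_zero (pow_ne_zero _ hW0)) this
  have hY0 : algebraMap (RatFunc k) L y₀ ≠ 0 := by
    rwa [Ne, FaithfulSMul.algebraMap_eq_zero_iff]
  have ha0 : (y₀ * w ^ N)⁻¹ ≠ 0 := inv_ne_zero (mul_ne_zero hy0 (pow_ne_zero _ hw0))
  refine ⟨(y₀ * w ^ N)⁻¹, ha0, ?_⟩
  have hval : A.valuation (r * algebraMap (RatFunc k) L (y₀ * w ^ N)⁻¹) = 1 := by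
    have h4 : r * algebraMap (RatFunc k) L (y₀ * w ^ N)⁻¹ =
        r * (algebraMap (RatFunc k) L w ^ N)⁻¹ / algebraMap (RatFunc k) L y₀ := by
      rw [map_inv₀, map_mul, map_pow, mul_inv, div_eq_mul_inv]
      ring
    rw [h4, map_div₀, hy1, div_self]
    rw [Valuation.ne_zero_iff]
    exact mul_ne_zero hr (inv_ne_zero (pow_ne_zero _ hW0))
  refine ⟨mul_ne_zero hr ((_root_.map_ne_zero _).2 ha0), (A.valuation_le_one_iff _).1 hval.le,
    (A.valuation_le_one_iff _).1 ?_⟩
  rw [map_inv₀, hval, inv_one]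

end local'

end Pool.Agent.Helper54.SR
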