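import Pool.Agent.Helper54.SR.Defs

/-!
# Hilbert 90 for a finite group acting on a field, with a crossed homomorphism trivial on the kernel
-/

set_option autoImplicit false
open scoped Pointwise
open Polynomial Pool.Agent.Helper54.PW

namespace Pool.Agent.Helper54.SR

/-- SR-C3: Hilbert 90 -/
theorem hilbert90 {L Γ : Type} [Field L] [Group Γ] [Finite Γ] (act : Γ →* (L ≃+* L))
    (c : Γ → L) (hc0 : ∀ g, c g ≠ 0) (hc : ∀ g h, c (g * h) = c g * act g (c h))
    (hker : ∀ g, act g = 1 → c g = 1) : ∃ x : L, x ≠ 0 ∧ ∀ g, act g x = c g * x := by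
  classical
  have hfac : ∀ g h, act g = act h → c g = c h := by
    intro g h hgh
    have h0 : act (g⁻¹ * h) = 1 := by rw [map_mul, map_inv, hgh, inv_mul_cancel]
    have h1 := hc g (g⁻¹ * h)
    rw [hker _ h0, mul_inv_cancel_left, map_one, mul_one] at h1
    exact h1.symm
  have : Finite act.range := Set.finite_range act
  have := Fintype.ofFinite act.range
  choose s hs using fun σ : act.range => σ.2
  let c' : act.range → L := fun σ => c (s σ)
  let χ : act.range → (L →* L) := fun σ => (((σ : L ≃+* L) : L →+* L) : L →* L)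
  have hχ : Function.Injective χ := by
    intro σ τ h
    apply Subtype.ext
    apply RingEquiv.ext
    intro x
    exact DFunLike.congr_fun h x
  have hli := (linearIndependent_monoidHom L L).comp χ hχ
  have hex : ∃ z, ∑ σ, c' σ * (σ : L ≃+* L) z ≠ 0 := by
    by_contra h
    push Not at h
    have h2 := Fintype.linearIndependent_iff.1 hli c' (by
      ext z
      have := h z
      simpa [χ] using this) 1
    exact hc0 _ h2
  obtain ⟨z, hz⟩ := hex
  have hb : ∀ g, act g (∑ σ, c' σ * (σ : L ≃+* L) z) =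
      (c g)⁻¹ * ∑ σ, c' σ * (σ : L ≃+* L) z := by
    intro g
    rw [eq_inv_mul_iff_mul_eq₀ (hc0 g), map_sum, Finset.mul_sum]
    rw [← Equiv.sum_comp (Equiv.mulLeft (⟨act g, g, rfl⟩ : act.range))
      (fun σ => c' σ * (σ : L ≃+* L) z)]
    refine Finset.sum_congr rfl fun σ _ => ?_
    have h3 : c' (⟨act g, g, rfl⟩ * σ) = c g * act g (c' σ) := by
      rw [← hc]
      apply hfac
      rw [hs, map_mul, hs]
      rfl
    show c g * act g (c' σ * (σ : L ≃+* L) z) =
      c' (⟨act g, g, rfl⟩ * σ) * ((act g * (σ : L ≃+* L)) z)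
    rw [h3, map_mul, ← mul_assoc]
    rfl
  refine ⟨(∑ σ, c' σ * (σ : L ≃+* L) z)⁻¹, inv_ne_zero hz, fun g => ?_⟩
  rw [map_inv₀, hb, mul_inv, inv_inv]

end Pool.Agent.Helper54.SR
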